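import Pool.Agent.Helper70.KN.Goals2

/-!
# Project KN (MP_20ee5e_ag), packet PO2 (helper90): positivity of `W`
-/

open MeasureTheory Set

namespace Pool.Agent.Helper90.KN.PO2

open Pool.Agent.Helper70.KN

variable {N : ℕ}

/-- every point of the Newton polyhedron has coordinate sum at least one -/
theorem one_le (V : Finset (Fin N → ℕ)) (h0 : (0 : Fin N → ℕ) ∉ V) (x : Fin N → ℝ)
    (hx : x ∈ newton V) : 1 ≤ ∑ i, x i := by
  obtain ⟨z, hz, hzx⟩ := hx
  have h1 : convexHull ℝ ((fun (v : Fin N → ℕ) (i : Fin N) => (v i : ℝ)) ''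
      (V : Set (Fin N → ℕ))) ⊆ {x : Fin N → ℝ | 1 ≤ ∑ i, x i} := by
    apply convexHull_min
    · rintro _ ⟨v, hv, rfl⟩
      show (1 : ℝ) ≤ ∑ i, (v i : ℝ)
      have hne : v ≠ 0 := by
        rintro rfl
        exact h0 (Finset.mem_coe.mp hv)
      obtain ⟨i, hi⟩ : ∃ i, v i ≠ 0 := by
        by_contra hcon
        push Not at hcon
        exact hne (funext hcon)
      have h2 : v i ≤ ∑ j, v j := Finset.single_le_sum (fun _ _ => Nat.zero_le _)
        (Finset.mem_univ i)
      have h3 : 1 ≤ ∑ j, v j := by omega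
      exact_mod_cast h3
    · apply convex_halfSpace_ge
      exact ⟨fun a b => by simp [Finset.sum_add_distrib], fun c a => by
        simp [Finset.mul_sum]⟩
  have h2 : 1 ≤ ∑ i, z i := h1 hz
  exact h2.trans (Finset.sum_le_sum fun i _ => hzx i)

theorem t (hMF : S_MF) : S_PO2 := by
  intro N V hC h0 J
  obtain ⟨-, hfin, -⟩ := hMF N V hC J
  have hN : (0 : ℝ) < 1 / ((N : ℝ) + 1) := by positivity
  have hN1 : 1 / ((N : ℝ) + 1) ≤ 1 := by
    rw [div_le_one (by positivity)]
    have : (0 : ℝ) ≤ N := Nat.cast_nonneg N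
    linarith
  have hsub : Set.pi Set.univ (fun _ : Fin N => Set.Ioo (0 : ℝ) (1 / ((N : ℝ) + 1))) ⊆
      cyl V J := by
    intro x hx
    have hx' : ∀ i, 0 < x i ∧ x i < 1 / ((N : ℝ) + 1) := fun i => hx i (Set.mem_univ i)
    refine ⟨fun i => (hx' i).1.le, fun j _ => (hx' j).2.trans_le hN1, fun hcon => ?_⟩
    have h1 := one_le V h0 _ hcon
    have h2 : ∑ i, zr J x i ≤ ∑ _i : Fin N, 1 / ((N : ℝ) + 1) := by
      refine Finset.sum_le_sum fun i _ => ?_
      unfold zr
      split_ifs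
      · exact hN.le
      · exact (hx' i).2.le
    rw [Finset.sum_const, Finset.card_univ, Fintype.card_fin, nsmul_eq_mul] at h2
    have h3 : (N : ℝ) * (1 / ((N : ℝ) + 1)) < 1 := by
      rw [mul_one_div, div_lt_one (by positivity)]
      linarith
    linarith
  have hpos : 0 < volume (cyl V J) := by
    refine lt_of_lt_of_le ?_ (measure_mono hsub)
    rw [Real.volume_pi_Ioo]
    simp only [sub_zero]
    rw [Finset.prod_const]
    exact ENNReal.pow_pos (ENNReal.ofReal_pos.mpr hN) _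
  exact ENNReal.toReal_pos hpos.ne' hfin

end Pool.Agent.Helper90.KN.PO2
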