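import Pool.Agent.Helper70.KN.Goals4
import Pool.Agent.Helper32.KN.XX

/-!
# Project KN (MP_20ee5e_ag), packet SU4 (helper90): summation over i, j, k
-/

open MeasureTheory Set

namespace Pool.Agent.Helper90.KN.SU4

open Pool.Agent.Helper70.KN

theorem X1 {N : ℕ} (V : Finset (Fin N → ℕ)) : X V 1 = ∑ j : Fin N, W V {j} := by
  unfold X
  rw [Finset.powersetCard_one, Finset.sum_map]
  rfl

theorem X2 {N : ℕ} (V : Finset (Fin N → ℕ)) :
    2 * X V 2 = ∑ j : Fin N, ∑ k ∈ Finset.univ.erase j, W V {j, k} := by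
  have h := Pool.Agent.Helper32.KN.XX.double (W V) 1
  rw [Finset.powersetCard_one, Finset.sum_map] at h
  unfold X
  rw [show (2 : ℝ) = ((1 : ℕ) : ℝ) + 1 by norm_num, h]
  refine Finset.sum_congr rfl fun j _ => ?_
  have h1 : ((({j} : Finset (Fin N)))ᶜ) = Finset.univ.erase j := by
    ext k
    simp
  show ∑ i ∈ ({j} : Finset (Fin N))ᶜ, W V (insert i {j}) = _
  rw [h1]
  refine Finset.sum_congr rfl fun k _ => ?_
  rw [Finset.pair_comm]

theorem sum_erase {N : ℕ} (f : Fin N → ℝ) (i : Fin N) :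
    ∑ j ∈ Finset.univ.erase i, f j = ∑ j, f j - f i := by
  rw [← Finset.add_sum_erase Finset.univ f (Finset.mem_univ i)]
  ring

theorem t : S_SU4 := by
  intro N V a b
  have hsum1 : ∑ i : Fin N, ∑ j ∈ Finset.univ.erase i, W V {j} = ((N : ℝ) - 1) * X V 1 := by
    rw [X1]
    simp only [sum_erase]
    rw [Finset.sum_sub_distrib, Finset.sum_const, Finset.card_univ, Fintype.card_fin,
      nsmul_eq_mul]
    ring
  have hsum2 : ∑ i : Fin N, ∑ j ∈ Finset.univ.erase i,
      ∑ k ∈ (Finset.univ.erase i).erase j, W V {j, k} = ((N : ℝ) - 2) * (2 * X V 2) := by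
    rw [X2]
    obtain ⟨F, hF⟩ : ∃ F : ℝ, F = ∑ j : Fin N, ∑ k ∈ Finset.univ.erase j, W V {j, k} :=
      ⟨_, rfl⟩
    have h1 : ∀ i : Fin N, ∑ j ∈ Finset.univ.erase i,
        ∑ k ∈ (Finset.univ.erase i).erase j, W V {j, k} =
        F - 2 * ∑ k ∈ Finset.univ.erase i, W V {i, k} := by
      intro i
      have h2 : ∀ j ∈ Finset.univ.erase i, ∑ k ∈ (Finset.univ.erase i).erase j, W V {j, k} =
          ∑ k ∈ Finset.univ.erase j, W V {j, k} - W V {i, j} := by
        intro j hj
        have hij : i ∈ Finset.univ.erase j :=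
          Finset.mem_erase.mpr ⟨(Finset.ne_of_mem_erase hj).symm, Finset.mem_univ _⟩
        rw [← Finset.add_sum_erase _ _ hij, Finset.erase_right_comm, Finset.pair_comm j i]
        ring
      rw [Finset.sum_congr rfl h2, Finset.sum_sub_distrib,
        sum_erase (fun j => ∑ k ∈ Finset.univ.erase j, W V {j, k}) i, ← hF]
      ring
    rw [Finset.sum_congr rfl fun i _ => h1 i, Finset.sum_sub_distrib, Finset.sum_const,
      Finset.card_univ, Fintype.card_fin, nsmul_eq_mul, ← Finset.mul_sum, ← hF]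
    ring
  calc ∑ i : Fin N, ∑ j ∈ Finset.univ.erase i,
        (a * W V {j} - b * ∑ k ∈ (Finset.univ.erase i).erase j, W V {j, k})
      = a * ∑ i : Fin N, ∑ j ∈ Finset.univ.erase i, W V {j} -
        b * ∑ i : Fin N, ∑ j ∈ Finset.univ.erase i,
          ∑ k ∈ (Finset.univ.erase i).erase j, W V {j, k} := by
        simp only [Finset.sum_sub_distrib, Finset.mul_sum]
    _ = _ := by
        rw [hsum1, hsum2]
        ring

end Pool.Agent.Helper90.KN.SU4
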