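import Pool.Agent.Helper26.KN.Goals

namespace KN.PkCH

open Finset PowerSeries Pool.Agent.Helper97.RCK KN

def Pos (A : PowerSeries ℝ) : Prop := ∀ a, 0 < coeff a A

def Nn (A : PowerSeries ℝ) : Prop := ∀ a, 0 ≤ coeff a A

theorem Pos.nn {A : PowerSeries ℝ} (h : Pos A) : Nn A := fun a => (h a).le

theorem Pos.mul {A B : PowerSeries ℝ} (hA : Pos A) (hB : Pos B) : Pos (A * B) := by
  intro n
  rw [coeff_mul]
  exact Finset.sum_pos (fun p _ => mul_pos (hA _) (hB _)) ⟨(0, n), by simp⟩

theorem Nn.mul {A B : PowerSeries ℝ} (hA : Nn A) (hB : Nn B) : Nn (A * B) := by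
  intro n
  rw [coeff_mul]
  exact Finset.sum_nonneg (fun p _ => mul_nonneg (hA _) (hB _))

theorem Pos.pow_mul {H A : PowerSeries ℝ} (hH : Pos H) (hA : Pos A) (j : ℕ) :
    Pos (H ^ j * A) := by
  induction j with
  | zero => simpa using hA
  | succ j ih => rw [pow_succ', mul_assoc]; exact hH.mul ih

theorem coeff_up (lam : ℝ) (H : PowerSeries ℝ) (a : ℕ) :
    coeff a (up lam H) = lam ^ (a + 1) * coeff a H := by
  unfold up
  rw [coeff_C_mul, coeff_rescale]
  ring

theorem coeff_E (lam : ℝ) (H : PowerSeries ℝ) (a : ℕ) :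
    coeff a (up lam H - H) = (lam ^ (a + 1) - 1) * coeff a H := by
  rw [map_sub, coeff_up]; ring

theorem coeff_HX (H : PowerSeries ℝ) (a : ℕ) :
    coeff a (H + X * d⁄dX ℝ H) = ((a : ℝ) + 1) * coeff a H := by
  rw [map_add]
  cases a with
  | zero => simp
  | succ a =>
    rw [coeff_succ_X_mul, coeff_derivative]
    push_cast
    ring

section

variable {lam q : ℝ} {H Z : PowerSeries ℝ}

theorem deriv_pow (hH : HP lam H) (hZ : ZP q H Z) (j : ℕ) :
    d⁄dX ℝ (H ^ (j + 1) * Z) =
      (j + 1) • (H ^ (j + 1) * (up lam H - H) * Z) + C q * (H ^ (j + 2) * Z) := by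
  rw [Derivation.leibniz, Derivation.leibniz_pow, hH.2, hZ.2]
  simp only [smul_eq_mul, nsmul_eq_mul, Nat.add_sub_cancel]
  push_cast
  ring

theorem ida (hH : HP lam H) (hZ : ZP q H Z) (j m : ℕ) :
    ((m : ℝ) + 1) * coeff (m + 1) (H ^ (j + 1) * Z) =
      ((j : ℝ) + 1) * coeff m (H ^ (j + 1) * (up lam H - H) * Z) +
        q * coeff m (H ^ (j + 2) * Z) := by
  have h := congrArg (coeff m) (deriv_pow hH hZ j)
  rw [coeff_derivative, map_add, map_nsmul, coeff_C_mul, nsmul_eq_mul] at h
  push_cast at h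
  linarith

theorem idb (hpos : Pos H) (hposZ : Pos Z) (hlam : 1 < lam) (hH : HP lam H) (j m : ℕ) :
    (lam - 1) * (coeff (m + 1) (H ^ (j + 1) * Z) +
      coeff m (H ^ (j + 1) * (up lam H - H) * Z)) ≤
      coeff (m + 1) (H ^ j * (up lam H - H) * Z) := by
  have hR : Nn ((up lam H - H) - C (lam - 1) * (H + X * d⁄dX ℝ H)) := by
    intro a
    rw [map_sub, coeff_E, coeff_C_mul, coeff_HX]
    have hb : 1 + ((a + 1 : ℕ) : ℝ) * (lam - 1) ≤ (1 + (lam - 1)) ^ (a + 1) :=
      one_add_mul_le_pow (by linarith) _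
    have e : (1 + (lam - 1)) = lam := by ring
    rw [e] at hb
    push_cast at hb
    have := hpos a
    have h2 : 0 ≤ (lam ^ (a + 1) - 1 - (lam - 1) * ((a : ℝ) + 1)) * coeff a H := by
      apply mul_nonneg _ this.le
      linarith
    linarith
  have h1 : 0 ≤ coeff (m + 1) ((H ^ j * Z) *
      ((up lam H - H) - C (lam - 1) * (H + X * d⁄dX ℝ H))) :=
    Nn.mul (hpos.pow_mul hposZ j).nn hR (m + 1)
  have e1 : (H ^ j * Z) * ((up lam H - H) - C (lam - 1) * (H + X * d⁄dX ℝ H)) =
      H ^ j * (up lam H - H) * Z - (C (lam - 1) * (H ^ (j + 1) * Z) +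
        C (lam - 1) * (X * (H ^ (j + 1) * (up lam H - H) * Z))) := by
    rw [hH.2]; ring
  rw [e1, map_sub, map_add, coeff_C_mul, coeff_C_mul, coeff_succ_X_mul] at h1
  linarith

theorem posE (hpos : Pos H) (hlam : 1 < lam) : Pos (up lam H - H) := by
  intro a
  rw [coeff_E]
  apply mul_pos _ (hpos a)
  have h1 : 1 < lam ^ (a + 1) := one_lt_pow₀ hlam (Nat.succ_ne_zero a)
  linarith

/-- pure algebra of the induction step -/
theorem step_alg {k m w q A B e1 c e2 : ℝ} (hk : 0 < k) (hm : 0 ≤ m) (hw : 0 < w) (hq : 0 < q)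
    (hB : 0 < B) (he2 : 0 < e2) (he1 : 0 < e1)
    (ha : (m + 2) * A = k * e1 + q * B) (ha2 : (m + 1) * B = (k + 1) * e2 + q * c)
    (hb : w * (B + e2) ≤ e1)
    (ih : w * (k + 1) * (B + e2) * c ≤ (k + 2) * e2 * B) :
    w * k * (A + e1) * B ≤ (k + 1) * e1 * A := by
  obtain ⟨u, hu⟩ : ∃ u, u = w * (B + e2) := ⟨_, rfl⟩
  have hupos : 0 < u := by rw [hu]; positivity
  have hule : u ≤ e1 := by rw [hu]; exact hb
  -- I1
  have I1 : (k + 1) * u * (w * (k + m + 2) * B - (k + 1) * u) ≤ (k + 2) * q * (u - w * B) * B := by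
    have h1 := mul_le_mul_of_nonneg_left ih (mul_nonneg hw.le hq.le)
    have e : (k + 1) * u * (w * (k + m + 2) * B - (k + 1) * u) =
        w * q * (w * (k + 1) * (B + e2) * c) := by
      have hc : q * c = (m + 1) * B - (k + 1) * e2 := by linarith
      have : w * q * (w * (k + 1) * (B + e2) * c) = w * (w * (k + 1) * (B + e2)) * (q * c) := by ring
      rw [this, hc, hu]; ring
    have e' : (k + 2) * q * (u - w * B) * B = w * q * ((k + 2) * e2 * B) := by
      rw [hu]; ring
    rw [e, e']; exact h1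
  -- G(u) ≥ 0
  have Gu : 0 ≤ k * (k + 1) * u ^ 2 + (k + 1) * q * B * u - w * k * (k + m + 2) * u * B -
      w * k * q * B ^ 2 := by
    have h2 : 0 ≤ (k + 1) * (k * (k + 1) * u ^ 2 + (k + 1) * q * B * u -
        w * k * (k + m + 2) * u * B - w * k * q * B ^ 2) := by
      have h3 := mul_le_mul_of_nonneg_left I1 hk.le
      have h4 : 0 ≤ q * B * u + k * q * w * B ^ 2 := by positivity
      nlinarith [h3, h4]
    exact nonneg_of_mul_nonneg_right h2 (by linarith)
  have Ge : 0 ≤ k * (k + 1) * e1 ^ 2 + (k + 1) * q * B * e1 - w * k * (k + m + 2) * e1 * B -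
      w * k * q * B ^ 2 := by
    have h2 : 0 ≤ u * (k * (k + 1) * e1 ^ 2 + (k + 1) * q * B * e1 -
        w * k * (k + m + 2) * e1 * B - w * k * q * B ^ 2) := by
      have e : u * (k * (k + 1) * e1 ^ 2 + (k + 1) * q * B * e1 -
        w * k * (k + m + 2) * e1 * B - w * k * q * B ^ 2) =
        e1 * (k * (k + 1) * u ^ 2 + (k + 1) * q * B * u - w * k * (k + m + 2) * u * B -
          w * k * q * B ^ 2) + k * (k + 1) * u * e1 * (e1 - u) +
          w * k * q * B ^ 2 * (e1 - u) := by ring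
      rw [e]
      have h5 : 0 ≤ e1 - u := by linarith
      have := mul_nonneg he1.le Gu
      have h6 : 0 ≤ k * (k + 1) * u * e1 * (e1 - u) := by positivity
      have h7 : 0 ≤ w * k * q * B ^ 2 * (e1 - u) := by positivity
      linarith
    exact nonneg_of_mul_nonneg_right h2 hupos
  have hfin : 0 ≤ (m + 2) * ((k + 1) * e1 * A - w * k * (A + e1) * B) := by
    have e : (m + 2) * ((k + 1) * e1 * A - w * k * (A + e1) * B) =
        (k + 1) * e1 * ((m + 2) * A) - w * k * ((m + 2) * A + (m + 2) * e1) * B := by ring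
    rw [e, ha]
    nlinarith [Ge]
  have := nonneg_of_mul_nonneg_right hfin (by linarith)
  linarith

theorem claim (hpos : Pos H) (hposZ : Pos Z) (hlam : 1 < lam) (hq : 0 < q)
    (hH : HP lam H) (hZ : ZP q H Z) : ∀ m j : ℕ,
    (lam - 1) * ((j : ℝ) + 1) * (coeff (m + 1) (H ^ (j + 1) * Z) +
      coeff m (H ^ (j + 1) * (up lam H - H) * Z)) * coeff m (H ^ (j + 2) * Z) ≤
      ((j : ℝ) + 2) * coeff m (H ^ (j + 1) * (up lam H - H) * Z) *
        coeff (m + 1) (H ^ (j + 1) * Z) := by
  intro m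
  induction m with
  | zero =>
    intro j
    have h := ida hH hZ j 0
    have e1 : coeff 0 (H ^ (j + 2) * Z) = 1 := by
      have a1 : coeff 0 H = 1 := by
        rw [coeff_zero_eq_constantCoeff_apply]; exact hH.1
      rw [coeff_zero_eq_constantCoeff_apply, map_mul, map_pow, hH.1, hZ.1]; simp
    have e2 : coeff 0 (H ^ (j + 1) * (up lam H - H) * Z) = lam - 1 := by
      have a2 : constantCoeff (up lam H - H) = lam - 1 := by
        have := coeff_E lam H 0
        rw [coeff_zero_eq_constantCoeff_apply, coeff_zero_eq_constantCoeff_apply, hH.1] at this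
        rw [this]; ring
      rw [coeff_zero_eq_constantCoeff_apply, map_mul, map_mul, map_pow, hH.1, hZ.1, a2]; simp
    rw [e1, e2] at h ⊢
    have h' : coeff (0 + 1) (H ^ (j + 1) * Z) = ((j : ℝ) + 1) * (lam - 1) + q := by
      push_cast at h; linarith
    rw [h']
    have hw : 0 < lam - 1 := by linarith
    have : 0 ≤ (lam - 1) * q := by positivity
    nlinarith [this]
  | succ m ih =>
    intro j
    have ih' := ih (j + 1)
    have hw : 0 < lam - 1 := by linarith
    have ha := ida hH hZ j (m + 1)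
    have ha2 := ida hH hZ (j + 1) m
    have hb := idb hpos hposZ hlam hH (j + 1) m
    have pB : 0 < coeff (m + 1) (H ^ (j + 2) * Z) := hpos.pow_mul hposZ _ _
    have pe1 : 0 < coeff (m + 1) (H ^ (j + 1) * (up lam H - H) * Z) := by
      rw [mul_assoc]; exact hpos.pow_mul ((posE hpos hlam).mul hposZ) _ _
    have pe2 : 0 < coeff m (H ^ (j + 2) * (up lam H - H) * Z) := by
      rw [mul_assoc]; exact hpos.pow_mul ((posE hpos hlam).mul hposZ) _ _
    have hk : (0 : ℝ) < (j : ℝ) + 1 := by positivity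
    have key := step_alg (k := (j : ℝ) + 1) (m := (m : ℝ)) (w := lam - 1) (q := q)
      (A := coeff (m + 1 + 1) (H ^ (j + 1) * Z)) (B := coeff (m + 1) (H ^ (j + 2) * Z))
      (e1 := coeff (m + 1) (H ^ (j + 1) * (up lam H - H) * Z))
      (c := coeff m (H ^ (j + 3) * Z))
      (e2 := coeff m (H ^ (j + 2) * (up lam H - H) * Z)) hk (by positivity) hw hq pB pe2 pe1
      (by push_cast at ha; linarith)
      (by push_cast at ha2
          have e : (j + 1 + 1) = j + 2 := by ring
          have e' : (j + 1 + 2) = j + 3 := by ring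
          rw [e, e'] at ha2
          linarith)
      (by have e : (j + 1 + 1) = j + 2 := by ring
          rw [e] at hb
          exact hb)
      (by push_cast at ih'
          have e : (j + 1 + 1) = j + 2 := by ring
          have e' : (j + 1 + 2) = j + 3 := by ring
          rw [e, e'] at ih'
          have e3 : (j : ℝ) + 1 + 2 = j + 3 := by ring
          linarith)
    have e4 : (j : ℝ) + 1 + 1 = (j : ℝ) + 2 := by ring
    rw [e4] at key
    exact key

end

theorem ch : G_POS → G_CH := by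
  intro hpos lam q H Z hlam hq hH hZ N
  obtain ⟨h1, h2⟩ := hpos lam q H Z hlam hq hH hZ
  have hw : 0 < lam - 1 := by linarith
  have p1 : Pos H := h1
  have p2 : Pos Z := h2
  cases N with
  | zero =>
    have e : mu lam H Z 0 = 0 := by
      unfold mu
      rw [mul_assoc X, coeff_zero_X_mul]; simp
    rw [e]; simp
  | succ m =>
    have e : mu lam H Z (m + 1) = 3 * coeff m (H ^ 3 * (up lam H - H) * Z) := by
      unfold mu
      rw [mul_assoc X, coeff_succ_X_mul]
    have hc := claim p1 p2 hlam hq hH hZ m 2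
    have ha := ida hH hZ 2 m
    have pe : 0 < coeff m (H ^ 3 * (up lam H - H) * Z) := by
      rw [mul_assoc]; exact p1.pow_mul ((posE p1 hlam).mul p2) _ _
    have pp : 0 < coeff m (H ^ 4 * Z) := p1.pow_mul p2 _ _
    have eg : ga H Z (m + 1) = coeff (m + 1) (H ^ 3 * Z) := rfl
    rw [e, eg]
    have t1 : (2 + 1) = 3 := rfl
    have t2 : (2 + 2) = 4 := rfl
    rw [t1, t2] at hc ha
    push_cast at hc ha ⊢
    generalize coeff m (H ^ 3 * (up lam H - H) * Z) = ep at *
    generalize coeff (m + 1) (H ^ 3 * Z) = g at *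
    generalize coeff m (H ^ 4 * Z) = p4 at *
    refine ⟨?_, by positivity, ?_⟩
    · have e5 : ((m : ℝ) + 1) * g - 3 * ep = q * p4 := by linarith
      rw [e5]
      have h3 := mul_le_mul_of_nonneg_left hc (by positivity : (0 : ℝ) ≤ 3 * q)
      nlinarith [h3]
    · have : 0 < q * p4 := by positivity
      linarith

end KN.PkCH
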